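import Pool.Agent.R922.HK.Stm

/-!
# HK-SET: the extremal set (MP_6a97ae_co)
-/

namespace R922.HK

theorem A_lt_B (N i u : ℕ) : A N i u < B N i u := by
  unfold B
  have := X_pos u
  omega

theorem A_strict {N : ℕ} (i : ℕ) (hN : 1 ≤ N) : StrictMono (A N i) := by
  apply strictMono_nat_of_lt_succ
  intro n
  rw [A_succ]
  omega

theorem B_strict {N : ℕ} (i : ℕ) (hN : 1 ≤ N) : StrictMono (B N i) := by
  intro u v h
  have h1 := A_strict i hN h
  have h2 := X_mono h.le
  unfold B
  omega

theorem B_lt_A {N i u : ℕ} (hi : i < N) (hu : u < U N i) : B N i u < A N i (u + 1) := by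
  rw [A_succ]
  unfold B
  have hX := X_le hi hu.le
  have h1 := pos_eq u
  by_cases h : J u + dl N i u = 0
  · have h2 : dl N i u = 0 := by omega
    have h3 : X u < N := by
      by_contra hc
      have h4 : T (N - i) ≤ T (X u) := T_mono (by omega)
      have h5 : T (N - i) ≤ u := by omega
      unfold dl at h2
      rw [if_pos h5] at h2
      omega
    omega
  · omega

theorem B_ne_A {N i u v : ℕ} (hi : i < N) (hu : u ≤ U N i) (_hv : v ≤ U N i) :
    A N i u ≠ B N i v := by
  intro h
  have hs := A_strict i (show 1 ≤ N by omega)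
  rcases Nat.lt_or_ge v u with h1 | h1
  · have h2 := B_lt_A hi (show v < U N i by omega)
    have h3 := hs.monotone (show v + 1 ≤ u by omega)
    omega
  · have h2 := hs.monotone h1
    have h3 := A_lt_B N i v
    omega

theorem card_D : P_card := by
  intro N i hi
  have hN : 1 ≤ N := by omega
  unfold D
  rw [Finset.card_union_of_disjoint, Finset.card_image_of_injective _ (A_strict i hN).injective,
    Finset.card_image_of_injective _ (B_strict i hN).injective, Finset.card_range]
  · ring
  · rw [Finset.disjoint_left]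
    intro x hx hx'
    rw [Finset.mem_image] at hx hx'
    obtain ⟨u, hu, rfl⟩ := hx
    obtain ⟨v, hv, hvu⟩ := hx'
    rw [Finset.mem_range] at hu hv
    exact B_ne_A hi (by omega) (by omega) hvu.symm

theorem mem_D {N i x : ℕ} : x ∈ D N i ↔ ∃ u ≤ U N i, x = A N i u ∨ x = B N i u := by
  unfold D
  rw [Finset.mem_union, Finset.mem_image, Finset.mem_image]
  constructor
  · rintro (⟨u, hu, rfl⟩ | ⟨u, hu, rfl⟩)
    · rw [Finset.mem_range] at hu
      exact ⟨u, by omega, Or.inl rfl⟩
    · rw [Finset.mem_range] at hu
      exact ⟨u, by omega, Or.inr rfl⟩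
  · rintro ⟨u, hu, rfl | rfl⟩
    · exact Or.inl ⟨u, Finset.mem_range.2 (by omega), rfl⟩
    · exact Or.inr ⟨u, Finset.mem_range.2 (by omega), rfl⟩

theorem tot_le : P_tot := by
  classical
  intro N i s hi hs
  have hN : 1 ≤ N := by omega
  have hA := A_strict i hN
  have hB := B_strict i hN
  have h1 : ((D N i ×ˢ D N i).filter (fun p => p.2 = p.1 + s)).card ≤
      ((Finset.range (U N i + 1)).biUnion fun m =>
        ((AA N i m s).image (A N i) ∪ (BB N i m s).image (B N i)) ∪
          ((AB N i m s).image (A N i) ∪ (BA N i m s).image (B N i))).card := by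
    refine Finset.card_le_card_of_injOn Prod.fst ?_ ?_
    · rintro ⟨p, q⟩ hpq
      rw [Finset.mem_coe, Finset.mem_filter, Finset.mem_product] at hpq
      obtain ⟨⟨hp, hq⟩, hpq⟩ := hpq
      simp only at hp hq hpq
      subst hpq
      rw [mem_D] at hp hq
      obtain ⟨u, hu, hp⟩ := hp
      obtain ⟨v, hv, hq⟩ := hq
      rw [Finset.mem_coe, Finset.mem_biUnion]
      have huv : u ≤ v → v - u ∈ Finset.range (U N i + 1) := by
        intro h
        rw [Finset.mem_range]
        omega
      have hs1 : u ≤ v → u + (v - u) = v := fun h => by omega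
      rcases hp with hp | hp <;> rcases hq with hq | hq
      · have h2 : u ≤ v := by
          by_contra hc
          have := hA (show v < u by omega)
          omega
        refine ⟨v - u, huv h2, ?_⟩
        simp only [Finset.mem_union, Finset.mem_image]
        refine Or.inl (Or.inl ⟨u, ?_, hp.symm⟩)
        rw [mem_AA, hs1 h2]
        exact ⟨hv, by omega⟩
      · have h2 : u ≤ v := by
          by_contra hc
          have h3 := B_lt_A hi (show v < U N i by omega)
          have h4 := hA.monotone (show v + 1 ≤ u by omega)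
          omega
        refine ⟨v - u, huv h2, ?_⟩
        simp only [Finset.mem_union, Finset.mem_image]
        refine Or.inr (Or.inl ⟨u, ?_, hp.symm⟩)
        rw [mem_AB, hs1 h2]
        exact ⟨hv, by omega⟩
      · have h2 : u ≤ v := by
          by_contra hc
          have h3 := hA.monotone (show v ≤ u by omega)
          have h4 := A_lt_B N i u
          omega
        refine ⟨v - u, huv h2, ?_⟩
        simp only [Finset.mem_union, Finset.mem_image]
        refine Or.inr (Or.inr ⟨u, ?_, hp.symm⟩)
        rw [mem_BA, hs1 h2]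
        exact ⟨hv, by omega⟩
      · have h2 : u ≤ v := by
          by_contra hc
          have := hB (show v < u by omega)
          omega
        refine ⟨v - u, huv h2, ?_⟩
        simp only [Finset.mem_union, Finset.mem_image]
        refine Or.inl (Or.inr ⟨u, ?_, hp.symm⟩)
        rw [mem_BB, hs1 h2]
        exact ⟨hv, by omega⟩
    · rintro ⟨p, q⟩ hpq ⟨p', q'⟩ hpq' h
      rw [Finset.mem_coe, Finset.mem_filter] at hpq hpq'
      have e1 := hpq.2
      have e2 := hpq'.2
      simp only at e1 e2 h
      rw [e1, e2, h]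
  refine h1.trans (Finset.card_biUnion_le.trans ?_)
  unfold tot
  refine Finset.sum_le_sum fun m _ => ?_
  refine (Finset.card_union_le _ _).trans ?_
  have q1 := Finset.card_union_le ((AA N i m s).image (A N i)) ((BB N i m s).image (B N i))
  have q2 := Finset.card_union_le ((AB N i m s).image (A N i)) ((BA N i m s).image (B N i))
  have q3 := Finset.card_image_le (s := AA N i m s) (f := A N i)
  have q4 := Finset.card_image_le (s := BB N i m s) (f := B N i)
  have q5 := Finset.card_image_le (s := AB N i m s) (f := A N i)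
  have q6 := Finset.card_image_le (s := BA N i m s) (f := B N i)
  omega

theorem max_D : P_max := by
  intro N i x hi hx
  rw [mem_D] at hx
  obtain ⟨u, hu, hx⟩ := hx
  have hN : 1 ≤ N := by omega
  have h1 : x ≤ B N i (U N i) := by
    have h2 := (B_strict i hN).monotone hu
    have h3 := A_lt_B N i u
    rcases hx with rfl | rfl <;> omega
  obtain ⟨j, hj⟩ : ∃ j, N = i + 1 + j := ⟨N - i - 1, by omega⟩
  have hNi : N - i = j + 1 := by omega
  have hXU : X (U N i) = N := X_block hi
  have hAU : A N i (U N i) = N * (T N + i) + V N + T i + (T N + i - T (N - i)) :=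
    A_block N i hN hi.le
  have hTle : T (N - i) ≤ T N := T_mono (by omega)
  obtain ⟨dd, hdd⟩ : ∃ dd, T N + i = T (N - i) + dd := ⟨T N + i - T (N - i), by omega⟩
  have hBU : B N i (U N i) = N * (T N + i) + V N + T i + dd + N := by
    unfold B
    rw [hXU, hAU, hdd]
    simp
  have e1 := T_two N
  have e2 := V_six N
  have e3 := T_two i
  have e4 := T_two (N - i)
  rw [hNi] at e4 hdd
  have h6 : 6 * B N i (U N i) = 2 * ((N - 1) * N * (2 * N - 1) + 3 * ((2 * i + 1) * N)) := by
    have h7 : N - 1 = i + j := by omega
    have h8 : 2 * N - 1 = 2 * (i + j) + 1 := by omega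
    rw [h7, h8, hBU]
    zify at *
    have hj' : (N : ℤ) = i + 1 + j := hj
    have : (6 : ℤ) * (N * (T N + i) + V N + T i + dd + N) =
        4 * N ^ 3 - 6 * N ^ 2 + 12 * N * i + 8 * N := by
      have e4' : (2 : ℤ) * T (j + 1) = (j + 1) * (j + 1) - (j + 1) := by linarith
      have e4'' : (j : ℤ) + 1 = N - i := by linarith
      rw [e4''] at e4'
      linear_combination (3 * N + 3) * e1 + e2 + 3 * e3 - 3 * e4' - 6 * hdd
    rw [this, hj']
    ring
  omega

theorem large : P_large := by
  classical
  intro S s hs
  rcases S.eq_empty_or_nonempty with rfl | hne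
  · simp
  rw [← Finset.card_erase_of_mem (S.max'_mem hne)]
  refine Finset.card_le_card_of_injOn Prod.fst ?_ ?_
  · rintro ⟨p, q⟩ hpq
    rw [Finset.mem_coe, Finset.mem_filter, Finset.mem_product] at hpq
    obtain ⟨⟨hp, hq⟩, hpq⟩ := hpq
    simp only at hp hq hpq
    subst hpq
    have h1 := S.le_max' _ hq
    rw [Finset.mem_coe, Finset.mem_erase]
    refine ⟨?_, hp⟩
    simp only
    omega
  · rintro ⟨p, q⟩ hpq ⟨p', q'⟩ hpq' h
    rw [Finset.mem_coe, Finset.mem_filter] at hpq hpq'
    have e1 := hpq.2
    have e2 := hpq'.2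
    simp only at e1 e2 h
    rw [e1, e2, h]

end R922.HK
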